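import Pool.Agent.H78.S.Targets

set_option autoImplicit false

open Set Pool.Agent.H77.BC Pool.Agent.H78.S
open scoped Pointwise

namespace Pool.Agent.H38.S

theorem pf_ABV (hITG : T_ITG) (hSOL : T_SOL) (hHIJ : T_HIJ) (hCJH : T_CJH) (hSYM : T_SYM) :
    T_ABV := by
  intro M U G S _ _ _ _ n x hF hcom i j hij
  haveI : DG U G := hF.dg
  haveI : Ful U S := hF.ful
  have hc : ∀ c, Com (TT U G x c) := by
    intro c
    obtain ⟨g, hg⟩ := (hSYM U x hF).2 (Equiv.swap 0 c)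
    have h1 := (hCJH U x hF g (Equiv.swap 0 c) hg).2.1 0
    rw [Equiv.swap_apply_left] at h1
    intro a ha b hb
    rw [← h1, mem_cj] at ha hb
    have h2 := hcom _ ha _ hb
    have h3 : g⁻¹ * (a * b) * g⁻¹⁻¹ = g⁻¹ * (b * a) * g⁻¹⁻¹ := by
      calc g⁻¹ * (a * b) * g⁻¹⁻¹ = (g⁻¹ * a * g⁻¹⁻¹) * (g⁻¹ * b * g⁻¹⁻¹) := by group
        _ = (g⁻¹ * b * g⁻¹⁻¹) * (g⁻¹ * a * g⁻¹⁻¹) := h2
        _ = _ := by group
    exact mul_left_cancel (mul_right_cancel h3)
  obtain ⟨a1, a2, a3, a4, a5, a6, a7, a8, a9, a10, a11, a12, a13⟩ := hHIJ U x hF i j hij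
  obtain ⟨b1, b2, b3, b4, b5, b6, b7, b8, b9, b10, b11, b12, b13⟩ := hHIJ U x hF j i hij.symm
  have hst : U.D ((Fx (TT U G x i) (x i) : Subgroup G) : Set G) := by
    have h1 : U.D {g : G | g • x i = x i} := by
      refine D_eqf (U := U) ?_ (DFn_const _)
      exact DFn_comp (f := fun g : G => (g, x i)) (g := fun p : G × S => p.1 • p.2) hF.act
        (DFn_pair DFn_id (DFn_const _))
    have h2 : ((Fx (TT U G x i) (x i) : Subgroup G) : Set G) =
        (TT U G x i : Set G) ∩ {g : G | g • x i = x i} := by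
      ext g
      simp [Fx, Subgroup.mem_inf, MulAction.mem_stabilizer_iff]
    rw [h2]
    exact D_inter a2.1 h1
  have hAB : U.D ((TT U G x i ⊓ TT U G x j : Subgroup G) : Set G) := by
    rw [Subgroup.coe_inf]
    exact D_inter a2.1 b2.1
  have hle : U.R ((TT U G x i ⊓ TT U G x j : Subgroup G) : Set G) ≤
      U.R ((Fx (TT U G x i) (x i) : Subgroup G) : Set G) := by
    refine (l_RKA U).mono hAB hst ⟨1, one_mem _⟩ ?_
    intro t ht
    obtain ⟨t1, t2⟩ := Subgroup.mem_inf.1 ht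
    exact Subgroup.mem_inf.2 ⟨t1, b10 i hij t t2⟩
  have hr : U.R (HH U G x i j : Set G) +
      U.R ((TT U G x i ⊓ TT U G x j : Subgroup G) : Set G) ≤
      U.R (TT U G x i : Set G) + U.R (TT U G x j : Set G) := by
    have e : n * (n + 1) = n * n + n := by ring
    rw [e] at a12 b12
    omega
  obtain ⟨V, v1, v2, v3, v4, v5⟩ := hITG U (HH U G x i j) (TT U G x i) (TT U G x j) a1 a2 b2 a7
    (a3 ▸ b7) (hc i) (hc j) hr
  exact hSOL _ V v1 v3 v5

end Pool.Agent.H38.S
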